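import Pool.Agent.ETC.Char

/-!
Abstract geometry of one symbol `c` (set-valued): `Z a b` says `a b = 0`, `C a b` says `a b = c`,
on a space `V` spanned by the slots of `c`.
-/

set_option autoImplicit false
set_option linter.unusedSectionVars false

namespace Pool.Agent.ETE8

open ETC

/-- the geometry of one symbol -/
structure OC (V : Type) [AddCommGroup V] [Module (ZMod 2) V] where
  Z : V → V → Prop
  C : V → V → Prop
  zs : ∀ {a b : V}, Z a b → Z b a
  cs : ∀ {a b : V}, C a b → C b a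
  zz : ∀ a : V, Z a a
  z0 : ∀ a : V, Z a 0
  za : ∀ {a b b' : V}, Z a b → Z a b' → Z a (b + b')
  cc : ∀ {a b b' : V}, C a b → C a b' → Z a (b + b')
  cz : ∀ {a b b' : V}, C a b → Z a b' → C a (b + b')
  ne : ∀ {a b : V}, C a b → ¬ Z a b
  /-- linkage -/
  link : ∀ {a b a' b' : V}, C a b → C a' b' → ∃ r, C a r ∧ C a' r
  /-- every element commutes with a slot -/
  cov : ∀ v : V, ∃ s r, C s r ∧ Z s v
  /-- the slots span -/
  sp : ∀ W : Submodule (ZMod 2) V, (∀ a r, C a r → a ∈ W) → ∀ v, v ∈ W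
  /-- sign characters, periodic under a given non-slot -/
  ch : ∀ d : V, (¬ ∃ r, C d r) → ∃ f : V → ℤ, (∀ x, f x = 1 ∨ f x = -1) ∧
    (∀ x a b, Z a b → f x * f (x + a) * f (x + b) * f (x + a + b) = 1) ∧
    (∀ x a b, C a b → f x * f (x + a) * f (x + b) * f (x + a + b) = -1) ∧
    ∀ x, f (x + d) = f x

variable {V : Type} [AddCommGroup V] [Module (ZMod 2) V]

namespace OC

/-- slots -/
def Sl (O : OC V) (a : V) : Prop := ∃ r, O.C a r

/-- property (3N) -/
def N3 (O : OC V) : Prop :=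
  ∀ a b e, O.Sl a → O.Sl b → O.Sl e → ¬ O.Sl (a + b) → ¬ O.Sl (a + e) → ¬ O.Sl (b + e) →
    O.Sl (a + b + e)

/-- property (HP): the slots contain the complement of a hyperplane -/
def HP (O : OC V) : Prop := ∃ l : D V, l ≠ 0 ∧ ∀ v, l v = 1 → O.Sl v

/-- the output of the class analysis (sections 1, 3a-3c and the case `j = 1` of Theorem 88) -/
def Cls (O : OC V) : Prop :=
  ∃ z, ¬ O.Sl z ∧
    ((∃ l : D V, l ≠ 0 ∧ l z = 0 ∧ ∀ v, l v = 1 → (O.Sl v ↔ ¬ O.Sl (v + z))) ∨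
     (∃ P : Submodule (ZMod 2) V, z ∈ P ∧ (∀ v, v ∉ P → O.Sl v ∨ O.Sl (v + z)) ∧
        ∀ v, O.Sl v → O.Sl (v + z) → ∀ p ∈ P, O.Sl (v + p)))

end OC

end Pool.Agent.ETE8
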