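import Pool.Agent.ETE8.Adapter
import Pool.Agent.ETPQ.Cls

/-!
**Theorem 88** (helper88, helper14, helper24): in quaternionic data with `-1 = 1` and `K4At`
no symbol `c ≠ 0` with a slot has property (3N): if `s`, `t`, `x` are slots of `c` and `s + t`,
`s + x`, `t + x` are not slots, then `s + t + x` is a slot.
-/

set_option autoImplicit false
set_option linter.unusedSectionVars false

namespace Pool.Agent.ETE8

open Pool.Agent.Helper58.PLine (QData)
open Pool.Agent.ETPF

variable {V Q : Type} [AddCommGroup V] [Module (ZMod 2) V] {S : QData V Q}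

/-- (3N) gives (HP) in a one-symbol geometry -/
theorem OC.hp_of_N3 [Finite V] (O : OC V) (h3 : O.N3) : O.HP := by
  by_contra hp
  exact hp (O.hp_of_Cls (cls O h3 hp))

/-- **Theorem 88** -/
theorem false_of_N3 [Finite V] (he : S.e = 0) {c : Q} (cne : c ≠ S.z)
    (k4 : ∀ z, z ≠ 0 → ETCD2.K4At S z) (hne : ∃ s, Sg S c s)
    (h3 : ∀ s t x, Sg S c s → Sg S c t → Sg S c x → ¬ Sg S c (s + t) → ¬ Sg S c (s + x) →
      ¬ Sg S c (t + x) → Sg S c (s + t + x)) : False := by
  refine false_of_HP he cne k4 hne (OC.hp_of_N3 _ ?_)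
  intro a b e ha hb hd h1 h2 h4
  rw [Sl_iff] at ha hb hd h1 h2 h4 ⊢
  exact h3 a b e ha hb hd h1 h2 h4

/-- every symbol violates (3N) -/
theorem exists_bad_triple [Finite V] (he : S.e = 0) {c : Q} (cne : c ≠ S.z)
    (k4 : ∀ z, z ≠ 0 → ETCD2.K4At S z) (hne : ∃ s, Sg S c s) :
    ∃ s t x, Sg S c s ∧ Sg S c t ∧ Sg S c x ∧ ¬ Sg S c (s + t) ∧ ¬ Sg S c (s + x) ∧
      ¬ Sg S c (t + x) ∧ ¬ Sg S c (s + t + x) := by
  by_contra hcon
  push Not at hcon
  exact false_of_N3 he cne k4 hne hcon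

end Pool.Agent.ETE8
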