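import Pool.Agent.ETC.Witt3
import Pool.Agent.ETE8.Basic

/-!
Sign characters from the Witt ring (`-1 = 1`): if `z` is not a slot of the quaternion symbol
`q a b`, there is a sign function `f` with `f x f (x+u) f (x+v) f (x+u+v) = 1` for `q u v = 0`,
`= -1` for `q u v = q a b` (and `x` commuting with a slot), and `f (x + z) = f x`.
-/

set_option autoImplicit false
set_option linter.unusedSectionVars false

namespace Pool.Agent.ETE8

open ETC
open Pool.Agent.Helper58.PLine (QData)

variable {V Q : Type} [AddCommGroup V] [Module (ZMod 2) V] {S : QData V Q}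

/-- every element of the Witt ring is a form -/
theorem exists_fm (u : WR S) : ∃ l, u = fm S l := by
  let G : AddSubgroup (WR S) :=
    { carrier := {u | ∃ l, u = fm S l}
      add_mem' := by
        rintro _ _ ⟨l, rfl⟩ ⟨k, rfl⟩
        exact ⟨l ++ k, (fm_append l k).symm⟩
      zero_mem' := ⟨[], fm_nil.symm⟩
      neg_mem' := by
        rintro _ ⟨l, rfl⟩
        refine ⟨l.map (S.e + ·), ?_⟩
        rw [fm_map, ph_e]
        ring }
  obtain ⟨x, rfl⟩ := Ideal.Quotient.mk_surjective u
  suffices h : Ideal.Quotient.mk (JJ S) x ∈ G from h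
  induction x using AddMonoidAlgebra.induction_on with
  | of t =>
    refine ⟨[Multiplicative.toAdd t], ?_⟩
    rw [fm_cons, fm_nil, add_zero]
    rfl
  | add f g hf hg =>
    rw [map_add]
    exact add_mem hf hg
  | smul n f hf =>
    rw [map_zsmul]
    exact zsmul_mem hf n

/-- the form `⟪z⟫ ⊗ l` -/
def tw (S : QData V Q) (z : V) (l : List V) : List V := l.flatMap (fun r => [r, r + z + S.e])

theorem tw_nil (z : V) : tw S z [] = [] := rfl

theorem tw_cons (z r : V) (l : List V) : tw S z (r :: l) = [r, r + z + S.e] ++ tw S z l := rfl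

theorem tw_length (z : V) (l : List V) : (tw S z l).length = 2 * l.length := by
  induction l with
  | nil => rfl
  | cons r l ih =>
    rw [tw_cons, List.length_append, ih]
    simp
    ring

theorem fm_tw (z : V) (l : List V) : fm S (tw S z l) = (1 - ph S z) * fm S l := by
  induction l with
  | nil => rw [tw_nil, fm_nil, mul_zero]
  | cons r l ih =>
    rw [tw_cons, fm_append, ih, fm_cons, fm_cons, fm_cons, fm_nil, ph_add, ph_add, ph_e]
    ring

/-- values of `⟪z⟫ ⊗ l` -/
theorem dm_tw {z : V} : ∀ (l : List V) {x : V}, Dm S (tw S z l) x →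
    ∃ l', l'.length + 1 = l.length ∧ (1 - ph S z) * fm S l = (1 - ph S z) * (ph S x + fm S l') := by
  intro l
  induction l with
  | nil =>
    intro x h
    exact absurd h not_dm_nil
  | cons r l ih =>
    intro x h
    have one : ∀ {y : V}, Dm S [r, r + z + S.e] y → (1 - ph S z) * ph S r = (1 - ph S z) * ph S y := by
      intro y hy
      rw [dm_pair, show r + (r + z + S.e) = z + S.e + (r + r) by abel, ZModModule.add_self,
        add_zero, mem_NN_e] at hy
      have h1 := one_sub_mul hy
      rw [ph_add] at h1
      have h2 := ph_self (S := S) y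
      linear_combination ph S y * h1 - (1 - ph S z) * ph S r * h2
    rw [tw_cons] at h
    by_cases hl : l = []
    · subst hl
      rw [tw_nil, List.append_nil] at h
      refine ⟨[], rfl, ?_⟩
      rw [fm_cons, fm_nil, add_zero, add_zero, one h]
    · obtain ⟨y, w, h1, h2, h3⟩ := dm_append h (by simp) (by
        intro h0
        have := congrArg List.length h0
        rw [tw_length] at this
        apply hl
        apply List.eq_nil_of_length_eq_zero
        simp only [List.length_nil] at this
        omega)
      obtain ⟨l', k1, k2⟩ := ih h2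
      refine ⟨(y + w + x) :: l', by simp [← k1], ?_⟩
      obtain ⟨g, hg⟩ := h3
      have hlen := hg.length
      simp only [List.length_cons, List.length_nil] at hlen
      obtain ⟨t, rfl⟩ : ∃ t, g = [t] := by
        have : g.length = 1 := by omega
        exact List.length_eq_one_iff.1 this
      have e1 := fm_of_isom hg
      simp only [fm_cons, fm_nil, add_zero] at e1
      have hb := bin_of_ph e1
      have ht : t = y + w + x := by
        rw [hb.1, add_comm x t, add_assoc, ZModModule.add_self, add_zero]
      rw [ht] at e1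
      rw [fm_cons, fm_cons, mul_add, k2, one h1]
      linear_combination (1 - ph S z) * e1

/-- a two-fold Pfister form in `⟪z⟫ W` has `z` as a slot -/
theorem slot_of_mem (he : S.e = 0) {a b z : V} : ∀ (n : ℕ) (l : List V), l.length = n →
    (1 - ph S a) * (1 - ph S b) = (1 - ph S z) * fm S l → ∃ r, S.q a b = S.q z r := by
  have two : (1 : WR S) = -1 := by
    have := ph_e (S := S)
    rwa [he, ph_zero] at this
  intro n
  induction n using Nat.strong_induction_on with
  | _ n ih =>
    intro l hl h
    match l, hl with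
    | [], _ =>
      refine ⟨0, ?_⟩
      rw [fm_nil, mul_zero] at h
      rw [q_eq_zero_iff.2 h, S.q_zero]
    | [r], _ =>
      have e1 : fm S (rho S a b) = fm S (tw S z [r]) := by
        rw [fm_rho, fm_tw, h]
      obtain ⟨k, hk⟩ := isotropic_of_fm e1 (by rw [tw_length]; simp [rho])
      have h1 : Isom S [a + S.e, b + S.e, a + b] (S.e :: k) := hk.cancel
      obtain ⟨r', hr'⟩ := pure_value (S := S) (x := a) (y := b) (c := 0)
        ⟨k, by rw [zero_add]; exact h1⟩
      refine ⟨0, ?_⟩
      rw [hr', S.symm 0 r', S.q_zero, S.q_zero]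
    | [r1, r2], _ =>
      refine ⟨r1 + r2, ?_⟩
      apply q_eq_of_prod (g := r1)
      rw [h, fm_cons, fm_cons, fm_nil, add_zero, ph_add]
      have h2 := ph_self (S := S) r1
      linear_combination (1 - ph S z) * ph S r2 * (ph S r1 * ph S r1) * two +
        (1 - ph S z) * ph S r2 * (-1) * h2
    | r :: r2 :: r3 :: l, hl =>
      have e1 : fm S (tw S z (r :: r2 :: r3 :: l)) = fm S (rho S a b) := by
        rw [fm_rho, fm_tw, h]
      obtain ⟨k, hk⟩ := isotropic_of_fm e1 (by rw [tw_length]; simp [rho]; omega)
      rw [tw_cons] at hk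
      obtain ⟨x, h1, h2⟩ := isotropic_append (by simp) (by rw [tw_cons]; simp) hk
      obtain ⟨l', k1, k2⟩ := dm_tw _ h1
      refine ih l'.length (by
        simp only [List.length_cons] at k1 hl
        omega) l' rfl ?_
      rw [h, fm_cons, mul_add, k2]
      rw [dm_pair, show r + (r + z + S.e) = z + S.e + (r + r) by abel, ZModModule.add_self,
        add_zero, mem_NN_e] at h2
      have h3 := one_sub_mul h2
      rw [ph_add, ph_add, ph_e] at h3
      have h4 := ph_self (S := S) x
      linear_combination (-ph S x) * h3 - (1 - ph S z) * ph S r * h4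

/-- **sign characters** -/
theorem exists_char (he : S.e = 0) {a b z : V} (hns : ¬ ∃ r, S.q a b = S.q z r) :
    ∃ f : V → ℤ, (∀ x, f x = 1 ∨ f x = -1) ∧
      (∀ x u v, S.q u v = S.z → f x * f (x + u) * f (x + v) * f (x + u + v) = 1) ∧
      (∀ x u v, (∃ s t, S.q s t = S.q a b ∧ S.q s x = S.z) → S.q u v = S.q a b →
        f x * f (x + u) * f (x + v) * f (x + u + v) = -1) ∧
      ∀ x, f (x + z) = f x := by
  have one' : (1 : WR S) = -1 := by
    have := ph_e (S := S)
    rwa [he, ph_zero] at this
  have two : ∀ w : WR S, 2 • w = 0 := by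
    intro w
    rw [two_nsmul]
    linear_combination w * one'
  let _ : Module (ZMod 2) (WR S) := AddCommGroup.zmodModule two
  let p : Submodule (ZMod 2) (WR S) :=
    { carrier := {w | ∃ u, w = (1 - ph S z) * u}
      add_mem' := by
        rintro _ _ ⟨u, rfl⟩ ⟨v, rfl⟩
        exact ⟨u + v, by ring⟩
      zero_mem' := ⟨0, by ring⟩
      smul_mem' := by
        rintro c _ ⟨u, rfl⟩
        rcases zm c with rfl | rfl
        · exact ⟨0, by rw [zero_smul, mul_zero]⟩
        · exact ⟨u, by rw [one_smul]⟩ }
  have hp : (1 - ph S a) * (1 - ph S b) ∉ p := by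
    rintro ⟨u, hu⟩
    obtain ⟨l, rfl⟩ := exists_fm u
    exact hns (slot_of_mem he _ l rfl hu)
  obtain ⟨F, F1, F0⟩ := exists_dual_sep hp
  have prod : ∀ x u v : V, sg (F (ph S x)) * sg (F (ph S (x + u))) * sg (F (ph S (x + v))) *
      sg (F (ph S (x + u + v))) = sg (F (ph S x * ((1 - ph S u) * (1 - ph S v)))) := by
    intro x u v
    rw [← sg_add, ← sg_add, ← sg_add, ← map_add, ← map_add, ← map_add]
    congr 2
    rw [ph_add, ph_add, ph_add, ph_add]
    linear_combination (ph S x * ph S u + ph S x * ph S v) * one'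
  refine ⟨fun x => sg (F (ph S x)), fun x => ?_, fun x u v h => ?_, fun x u v h h' => ?_,
    fun x => ?_⟩
  · rcases zm (F (ph S x)) with h | h
    · left; show sg (F (ph S x)) = 1; rw [h, sg_zero]
    · right; show sg (F (ph S x)) = -1; rw [h, sg_one]
  · show sg (F (ph S x)) * sg (F (ph S (x + u))) * sg (F (ph S (x + v))) *
      sg (F (ph S (x + u + v))) = 1
    rw [prod, q_eq_zero_iff.1 h, mul_zero, map_zero, sg_zero]
  · show sg (F (ph S x)) * sg (F (ph S (x + u))) * sg (F (ph S (x + v))) *
      sg (F (ph S (x + u + v))) = -1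
    obtain ⟨s, t, hst, hsx⟩ := h
    have e1 := prod_of_q_eq h'
    have e2 := prod_of_q_eq hst
    have e3 := one_sub_mul hsx
    have e4 : ph S x * ((1 - ph S u) * (1 - ph S v)) = (1 - ph S a) * (1 - ph S b) := by
      rw [e1, ← e2]
      linear_combination (1 - ph S t) * e3
    rw [prod, e4, F1, sg_one]
  · show sg (F (ph S (x + z))) = sg (F (ph S x))
    congr 1
    have h1 : F (ph S (x + z) + ph S x) = 0 := F0 _ ⟨ph S x, by
      rw [ph_add]
      linear_combination (ph S x * ph S z) * one'⟩
    rw [map_add] at h1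
    exact eq_of_add_eq_zero h1

end Pool.Agent.ETE8
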