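import Pool.Agent.ETE8.Tool

/-!
(K2), Lemma X and the end of Theorem 88: the output `Cls` of the class analysis gives (HP).
-/

set_option autoImplicit false
set_option linter.unusedSectionVars false

namespace Pool.Agent.ETE8

open ETC

variable {V : Type} [AddCommGroup V] [Module (ZMod 2) V]

namespace OC

variable (O : OC V)

/-- **(K2)** -/
theorem K2 [Finite V] {z : V} (hz : ¬ O.Sl z) {l : D V} (l0 : l ≠ 0) (lz : l z = 0)
    (h : ∀ v, l v = 1 → O.Sl v ∨ O.Sl (v + z)) : O.T1 l := by
  obtain ⟨y, hy, ly⟩ : ∃ y, O.Sl y ∧ l y = 1 := by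
    obtain ⟨v0, hv0⟩ : ∃ v0, l v0 = 1 := by
      by_contra hc
      push Not at hc
      exact l0 (LinearMap.ext fun v => (zm (l v)).resolve_right (hc v))
    rcases h v0 hv0 with h1 | h1
    · exact ⟨v0, h1, hv0⟩
    · exact ⟨v0 + z, h1, by rw [map_add, hv0, lz, add_zero]⟩
  obtain ⟨l', h1, h2, h3⟩ := O.tool' hz hy (LinearMap.ker l) (by
    intro k hk
    rw [LinearMap.mem_ker] at hk
    exact h _ (by rw [map_add, ly, hk, add_zero]))
  have : l' = l := by
    refine LinearMap.ext fun v => ?_
    rcases zm (l v) with h4 | h4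
    · rw [h4]; exact h2 v h4
    · have h5 := h2 (v + y) (by
        rw [LinearMap.mem_ker, map_add, h4, ly]; decide)
      rw [map_add, h3] at h5
      rw [h4]
      rcases zm (l' v) with h6 | h6
      · rw [h6] at h5; exact absurd h5 (by decide)
      · exact h6
  rwa [← this]

/-- **Lemma X** -/
theorem lemX [Finite V] {z : V} (hz : ¬ O.Sl z) {l : D V} (l0 : l ≠ 0) (lz : l z = 0)
    (h : ∀ v, l v = 1 → (O.Sl v ↔ ¬ O.Sl (v + z))) : False := by
  have t1 : O.T1 l := O.K2 hz l0 lz fun v hv => by
    by_cases h1 : O.Sl (v + z)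
    · exact Or.inr h1
    · exact Or.inl ((h v hv).2 h1)
  obtain ⟨s, r, hr, hs⟩ := O.cov z
  have hn : ∀ n, O.C s n → l n = 0 := by
    intro n hn
    rcases zm (l n) with h1 | h1
    · exact h1
    · exact absurd (Sl.right (O.cz hn hs)) ((h n h1).1 (Sl.right hn))
  have h1 := t1.all (y := s) (fun v hv => by
    have h2 := hn _ (O.cz hr hv)
    rwa [map_add, hn r hr, zero_add] at h2) hr
  rw [hn r hr] at h1
  exact zero_ne_one h1

/-- the case of one direction: (HP) -/
theorem hpB [Finite V] {z : V} (hz : ¬ O.Sl z) {P : Submodule (ZMod 2) V} (zP : z ∈ P)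
    (h : ∀ v, v ∉ P → O.Sl v ∨ O.Sl (v + z))
    (h' : ∀ v, O.Sl v → O.Sl (v + z) → ∀ p ∈ P, O.Sl (v + p)) : O.HP := by
  obtain ⟨s, r, hr, hs⟩ := O.cov z
  have t1 : ∀ l : D V, l ≠ 0 → (∀ p ∈ P, l p = 0) → O.T1 l := by
    intro l l0 lP
    refine O.K2 hz l0 (lP z zP) fun v hv => h v fun hvP => ?_
    rw [lP v hvP] at hv
    exact zero_ne_one hv
  have hrG : r ∉ O.VS s ⊔ P := by
    intro hm
    obtain ⟨u, hu, p, hp, hup⟩ := Submodule.mem_sup.1 hm
    have h1 : O.C s p := by
      have h2 := O.cz hr hu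
      rwa [← hup, add_comm u p, add_assoc, ZModModule.add_self, add_zero] at h2
    have h3 := h' p (Sl.right h1) (Sl.right (O.cz h1 hs)) p hp
    rw [ZModModule.add_self] at h3
    exact O.not_Sl_zero h3
  obtain ⟨l, l1, l2⟩ := exists_dual_sep hrG
  refine ⟨l, ?_, ?_⟩
  · rintro rfl
    exact zero_ne_one l1
  · intro v hv
    have hvG : v + r ∈ O.VS s ⊔ P := by
      by_contra hc
      obtain ⟨l', l1', l2'⟩ := exists_dual_sep hc
      have e1 : l' r = 1 := (t1 l' (by
        rintro rfl
        exact zero_ne_one l1') fun p hp => l2' p (Submodule.mem_sup_right hp)).all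
          (fun w hw => l2' w (Submodule.mem_sup_left hw)) hr
      have e2 : l' v = 0 := by
        rw [map_add, e1] at l1'
        rcases zm (l' v) with h6 | h6
        · exact h6
        · rw [h6] at l1'; exact absurd l1' (by decide)
      have e3 : (l + l') r = 1 := (t1 (l + l') (by
        intro h0
        have := LinearMap.congr_fun h0 v
        rw [LinearMap.add_apply, hv, e2, LinearMap.zero_apply] at this
        exact absurd this (by decide)) fun p hp => by
          rw [LinearMap.add_apply, l2 p (Submodule.mem_sup_right hp),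
            l2' p (Submodule.mem_sup_right hp), add_zero]).all
          (fun w hw => by
            rw [LinearMap.add_apply, l2 w (Submodule.mem_sup_left hw),
              l2' w (Submodule.mem_sup_left hw), add_zero]) hr
      rw [LinearMap.add_apply, l1, e1] at e3
      exact absurd e3 (by decide)
    obtain ⟨u, hu, p, hp, hup⟩ := Submodule.mem_sup.1 hvG
    have h1 : O.C s (r + u) := O.cz hr hu
    have h2 := h' (r + u) (Sl.right h1) (Sl.right (O.cz h1 hs)) p hp
    have h3 : v = r + u + p := by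
      rw [add_assoc, hup, add_comm v r, add_add_self]
    rwa [h3]

/-- the class data give (HP) -/
theorem hp_of_Cls [Finite V] (h : O.Cls) : O.HP := by
  obtain ⟨z, hz, ⟨l, l0, lz, h1⟩ | ⟨P, zP, h1, h2⟩⟩ := h
  · exact (O.lemX hz l0 lz h1).elim
  · exact O.hpB hz zP h1 h2

end OC

end Pool.Agent.ETE8
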