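import Pool.Agent.ETPT.FL
import Pool.Agent.ETE8.End
import Pool.Agent.ETE8.WChar

/-!
The one-symbol geometry of a symbol `c ≠ 0` of quaternionic data with `-1 = 1`, on the span of
the slots of `c`.
-/

set_option autoImplicit false
set_option linter.unusedSectionVars false

namespace Pool.Agent.ETE8

open Pool.Agent.Helper58.PLine (QData)
open Pool.Agent.ETCP
open Pool.Agent.ETPF
open Pool.Agent.ETPT
open ETC (zm)

variable {V Q : Type} [AddCommGroup V] [Module (ZMod 2) V] {S : QData V Q}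

/-- the span of the slots -/
abbrev SE (S : QData V Q) (c : Q) : Submodule (ZMod 2) V :=
  Submodule.span (ZMod 2) {s | Sg S c s}

theorem mem_SE {c : Q} {s : V} (h : Sg S c s) : s ∈ SE S c := Submodule.subset_span h

/-- the geometry of `c` -/
def oc (S : QData V Q) (he : S.e = 0) (c : Q) (cne : c ≠ S.z) (hne : ∃ s, Sg S c s) :
    OC (SE S c) where
  Z a b := C S (a : V) b
  C a b := S.q (a : V) b = c
  zs h := C.symm h
  cs h := by rw [S.symm]; exact h
  zz a := C.self he _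
  z0 a := C.zero _
  za h h' := C.add h h'
  cc h h' := q_eq_iff.1 (h.trans h'.symm)
  cz h h' := qa h h'
  ne h h' := cne (h.symm.trans h')
  link := by
    intro a b a' b' h h'
    obtain ⟨r, h1, h2⟩ := (Sg.left h).common (Sg.left h')
    exact ⟨⟨r, mem_SE (Sg.right h1)⟩, h1, h2⟩
  cov := by
    intro v
    obtain ⟨s, ⟨r, hr⟩, hs⟩ := cm_span he hne v.2
    exact ⟨⟨s, mem_SE (Sg.left hr)⟩, ⟨r, mem_SE (Sg.right hr)⟩, hr, hs⟩
  sp := by
    intro W hW v
    have key : ∀ x (hx : x ∈ SE S c), (⟨x, hx⟩ : SE S c) ∈ W := by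
      intro x hx
      induction hx using Submodule.span_induction with
      | mem x hx =>
        obtain ⟨r, hr⟩ := hx
        exact hW ⟨x, _⟩ ⟨r, mem_SE (Sg.right hr)⟩ hr
      | zero => exact W.zero_mem
      | add x y hx hy h1 h2 => exact W.add_mem h1 h2
      | smul r x hx h1 => exact W.smul_mem r h1
    exact key v v.2
  ch := by
    intro d hd
    obtain ⟨s0, t0, ha⟩ := hne
    obtain ⟨f, f1, f2, f3, f4⟩ := exists_char (S := S) he (a := s0) (b := t0) (z := (d : V)) (by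
      rintro ⟨r, hr⟩
      rw [ha] at hr
      exact hd ⟨⟨r, mem_SE (Sg.right hr.symm)⟩, hr.symm⟩)
    refine ⟨fun x => f x, fun x => f1 x, fun x a b h => f2 x a b h, fun x a b h => ?_,
      fun x => f4 x⟩
    refine f3 x a b ?_ (by rw [ha]; exact h)
    obtain ⟨s, ⟨r, hr⟩, hs⟩ := cm_span he ⟨s0, t0, ha⟩ x.2
    exact ⟨s, r, by rw [ha, hr], hs⟩

theorem Sl_iff {he : S.e = 0} {c : Q} {cne : c ≠ S.z} {hne : ∃ s, Sg S c s} {x : SE S c} :
    (oc S he c cne hne).Sl x ↔ Sg S c x :=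
  ⟨fun ⟨r, hr⟩ => ⟨r, hr⟩, fun ⟨r, hr⟩ => ⟨⟨r, mem_SE (Sg.right hr)⟩, hr⟩⟩

/-- (HP) is impossible -/
theorem false_of_HP [Finite V] (he : S.e = 0) {c : Q} (cne : c ≠ S.z)
    (k4 : ∀ z, z ≠ 0 → ETCD2.K4At S z) (hne : ∃ s, Sg S c s)
    (h : (oc S he c cne hne).HP) : False := by
  obtain ⟨l, l0, hl⟩ := h
  obtain ⟨l', hl'⟩ := LinearMap.exists_extend l
  have e : ∀ x : SE S c, l' (x : V) = l x := fun x => LinearMap.congr_fun hl' x
  obtain ⟨v, hv⟩ : ∃ v, l v = 1 := by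
    by_contra hc
    push Not at hc
    exact l0 (LinearMap.ext fun v => (zm (l v)).resolve_right (hc v))
  refine Pool.Agent.ETPN.false_of_HP he cne k4 (E := SE S c) (l := l') (fun s hs => mem_SE hs)
    (fun v hv h1 => ?_) ⟨v, v.2, by rw [e, hv]⟩
  rw [e ⟨v, hv⟩] at h1
  exact Sl_iff.1 (hl ⟨v, hv⟩ h1)

end Pool.Agent.ETE8
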