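import Pool.Agent.ETE8.Basic

/-!
The set-valued separation tool: `z` a non-slot, `y` a slot, `K` a subspace such that every
`y + k` is a slot up to `z`. Then some `w` with `y w = c` has `w (y + k) ≠ 0` for all `k ∈ K`.
-/

set_option autoImplicit false
set_option linter.unusedSectionVars false

namespace Pool.Agent.ETE8

open ETC Finset

variable {V : Type} [AddCommGroup V] [Module (ZMod 2) V]

/-- positive definiteness of an autocorrelation summed over a subspace -/
theorem corr_nonneg [Fintype V] (U : Submodule (ZMod 2) V) [Fintype U] (a : V → ℤ) :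
    0 ≤ ∑ u : U, ∑ x : V, a x * a (x + u) := by
  have key : ∑ x : V, (∑ u : U, a (x + u)) ^ 2 =
      (Fintype.card U : ℤ) * ∑ u : U, ∑ x : V, a x * a (x + u) := by
    calc ∑ x : V, (∑ u : U, a (x + u)) ^ 2
        = ∑ x : V, ∑ u : U, ∑ u' : U, a (x + u) * a (x + u') := by
          refine Finset.sum_congr rfl fun x _ => ?_
          rw [sq, Finset.sum_mul_sum]
      _ = ∑ u : U, ∑ u' : U, ∑ x : V, a (x + u) * a (x + u') := by
          rw [Finset.sum_comm]
          exact Finset.sum_congr rfl fun u _ => Finset.sum_comm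
      _ = ∑ u : U, ∑ u' : U, ∑ x : V, a x * a (x + (u + u' : U)) := by
          refine Finset.sum_congr rfl fun u _ => Finset.sum_congr rfl fun u' _ => ?_
          rw [← Equiv.sum_comp (Equiv.addRight (u : V)) (fun x => a x * a (x + (u + u' : U)))]
          refine Finset.sum_congr rfl fun x _ => ?_
          simp only [Equiv.coe_addRight, Submodule.coe_add]
          rw [show x + (u : V) + (u + u') = x + u' by
            rw [← add_assoc, add_assoc x, ZModModule.add_self, add_zero]]
      _ = ∑ u : U, ∑ u' : U, ∑ x : V, a x * a (x + u') := by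
          refine Finset.sum_congr rfl fun u _ => ?_
          exact Equiv.sum_comp (Equiv.addLeft u) (fun u' : U => ∑ x : V, a x * a (x + u'))
      _ = _ := by
          rw [Finset.sum_const, Finset.card_univ, nsmul_eq_mul]
  have h1 : (0 : ℤ) ≤ ∑ x : V, (∑ u : U, a (x + u)) ^ 2 :=
    Finset.sum_nonneg fun x _ => sq_nonneg _
  have h2 : (0 : ℤ) < Fintype.card U := by
    exact_mod_cast Fintype.card_pos
  rw [key] at h1
  exact nonneg_of_mul_nonneg_right h1 h2

namespace OC

variable (O : OC V)

/-- the elements commuting with `y` -/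
def VS (y : V) : Submodule (ZMod 2) V where
  carrier := {u | O.Z y u}
  add_mem' := fun ha hb => O.za ha hb
  zero_mem' := O.z0 y
  smul_mem' := by
    intro r x hx
    rcases zm r with rfl | rfl
    · rw [zero_smul]; exact O.z0 y
    · rw [one_smul]; exact hx

theorem mem_VS {y u : V} : u ∈ O.VS y ↔ O.Z y u := Iff.rfl

/-- translation by an element of `N_y` -/
def nE {y v : V} (hv : O.C y v) : {w // O.C y w} ≃ O.VS y where
  toFun w := ⟨v + w, O.cc hv w.2⟩
  invFun u := ⟨v + u, O.cz hv u.2⟩
  left_inv _ := Subtype.ext (add_add_self _ _)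
  right_inv _ := Subtype.ext (add_add_self _ _)

theorem not_Sl_zero : ¬ O.Sl 0 := by
  rintro ⟨r, hr⟩
  exact O.ne (O.cs hr) (O.z0 r)

theorem Sl.right {O : OC V} {a b : V} (h : O.C a b) : O.Sl b := ⟨a, O.cs h⟩

/-- **(L'')** -/
theorem tool [Finite V] {z y : V} (hz : ¬ O.Sl z) (hy : O.Sl y) (K : Submodule (ZMod 2) V)
    (h : ∀ k ∈ K, O.Sl (y + k) ∨ O.Sl (y + k + z)) :
    ∃ w, O.C y w ∧ ∀ k ∈ K, ¬ O.Z w (y + k) := by
  classical
  by_contra hcon
  push Not at hcon
  have : Fintype V := Fintype.ofFinite V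
  obtain ⟨f, f1, fz, fc, fp⟩ := O.ch z hz
  obtain ⟨w0, hw0⟩ := hy
  -- the sign functions
  let g : V → V → ℤ := fun e x => f x * f (x + e)
  have g1 : ∀ e x, g e x * g e x = 1 := by
    intro e x
    show f x * f (x + e) * (f x * f (x + e)) = 1
    rcases f1 x with h1 | h1 <;> rcases f1 (x + e) with h2 | h2 <;> rw [h1, h2] <;> norm_num
  have gc : ∀ w k x, O.C w k → g w (x + k) = - g w x := by
    intro w k x hwk
    have h1 := fc x w k hwk
    have h2 : g w x * g w (x + k) = -1 := by
      show f x * f (x + w) * (f (x + k) * f (x + k + w)) = -1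
      rw [show x + k + w = x + w + k by abel]
      linarith [h1, mul_assoc (f x * f (x + w)) (f (x + k)) (f (x + w + k))]
    have h3 := g1 w x
    calc g w (x + k) = g w x * g w x * g w (x + k) := by rw [h3, one_mul]
      _ = g w x * (g w x * g w (x + k)) := by ring
      _ = - g w x := by rw [h2]; ring
  have gsym : ∀ e w x, g w x * g w (x + e) = g e x * g e (x + w) := by
    intro e w x
    show f x * f (x + w) * (f (x + e) * f (x + e + w)) = f x * f (x + e) * (f (x + w) * f (x + w + e))
    rw [show x + e + w = x + w + e by abel]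
    ring
  let P : V → ℤ := fun e => ∑ w : {w // O.C y w}, ∑ x : V, g w x * g w (x + e)
  have P_neg : ∀ e, O.Sl e → P e ≤ 0 := by
    rintro e ⟨r, hr⟩
    obtain ⟨v, hv1, hv2⟩ := O.link hw0 hr
    have h1 : P e = - ∑ u : O.VS y, ∑ x : V, g e x * g e (x + u) := by
      have h2 : P e = ∑ u : O.VS y, ∑ x : V, g (v + u) x * g (v + u) (x + e) := by
        exact (Equiv.sum_comp (O.nE hv1).symm
          (fun w : {w // O.C y w} => ∑ x : V, g w x * g w (x + e))).symm
      rw [h2, ← Finset.sum_neg_distrib]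
      refine Finset.sum_congr rfl fun u _ => ?_
      rw [← Finset.sum_neg_distrib]
      refine Finset.sum_congr rfl fun x _ => ?_
      rw [gsym, show x + (v + (u : V)) = x + u + v by abel, gc e v _ hv2]
      ring
    rw [h1]
    have := corr_nonneg (O.VS y) (g e)
    linarith
  have P_per : ∀ e, P (e + z) = P e := by
    intro e
    refine Finset.sum_congr rfl fun w _ => Finset.sum_congr rfl fun x _ => ?_
    show _ * (f (x + (e + z)) * f (x + (e + z) + w)) = _ * (f (x + e) * f (x + e + w))
    rw [show x + (e + z) = x + e + z by abel, fp,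
      show x + e + z + (w : V) = x + e + w + z by abel, fp]
  have P_y : ∀ k, P (y + k) = - P k := by
    intro k
    show ∑ w : {w // O.C y w}, ∑ x : V, g w x * g w (x + (y + k)) = _
    rw [← Finset.sum_neg_distrib]
    refine Finset.sum_congr rfl fun w _ => ?_
    rw [← Finset.sum_neg_distrib]
    refine Finset.sum_congr rfl fun x _ => ?_
    rw [show x + (y + k) = x + k + y by abel, gc w y _ (O.cs w.2)]
    ring
  have P_zero : P (y + 0) < 0 := by
    rw [P_y]
    have h1 : P 0 = ∑ w : {w // O.C y w}, (Fintype.card V : ℤ) := by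
      refine Finset.sum_congr rfl fun w _ => ?_
      rw [Finset.sum_congr rfl (g := fun _ => (1 : ℤ)) (fun x _ => by rw [add_zero, g1])]
      simp
    have h2 : 0 < P 0 := by
      rw [h1]
      apply Finset.sum_pos (fun w _ => card_pos')
      exact ⟨⟨w0, hw0⟩, Finset.mem_univ _⟩
    linarith
  have P_sum : ∑ k : K, P (y + k) = 0 := by
    have h1 : ∑ k : K, P (y + k) = - ∑ k : K, P k := by
      rw [← Finset.sum_neg_distrib]
      exact Finset.sum_congr rfl fun k _ => P_y k
    rw [h1, neg_eq_zero]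
    show ∑ k : K, ∑ w : {w // O.C y w}, ∑ x : V, g w x * g w (x + k) = 0
    rw [Finset.sum_comm]
    refine Finset.sum_eq_zero fun w _ => ?_
    rw [Finset.sum_comm]
    refine Finset.sum_eq_zero fun x _ => ?_
    rw [← Finset.mul_sum]
    obtain ⟨k0, hk0, hk⟩ := hcon w w.2
    have hC : O.C w k0 := by
      have := O.cz (O.cs w.2) hk
      rwa [add_add_self] at this
    have h2 : ∑ k : K, g w (x + k) = - ∑ k : K, g w (x + k) := by
      rw [← Finset.sum_neg_distrib]
      rw [← Equiv.sum_comp (Equiv.addRight (⟨k0, hk0⟩ : K)) (fun k : K => g w (x + k))]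
      refine Finset.sum_congr rfl fun k _ => ?_
      simp only [Equiv.coe_addRight, Submodule.coe_add]
      rw [← add_assoc, gc w k0 _ hC]
    have h3 : ∑ k : K, g w (x + k) = 0 := by linarith
    rw [h3, mul_zero]
  have P_le : ∀ k : K, P (y + k) ≤ 0 := by
    intro k
    rcases h k k.2 with h1 | h1
    · exact P_neg _ h1
    · rw [← P_per]; exact P_neg _ h1
  have h4 : ∑ k : K, P (y + k) ≤ P (y + 0) := by
    rw [← Finset.add_sum_erase Finset.univ (fun k : K => P (y + k)) (Finset.mem_univ (0 : K))]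
    have := Finset.sum_nonpos (s := Finset.univ.erase (0 : K)) (f := fun k : K => P (y + k))
      (fun k _ => P_le k)
    simpa using this
  linarith

/-- `lam` has type one -/
def T1 (l : D V) : Prop := ∃ y, O.Sl y ∧ (∀ v, O.Z y v → l v = 0) ∧ ∀ n, O.C y n → l n = 1

/-- the tool, in dual form -/
theorem tool' [Finite V] {z y : V} (hz : ¬ O.Sl z) (hy : O.Sl y) (K : Submodule (ZMod 2) V)
    (h : ∀ k ∈ K, O.Sl (y + k) ∨ O.Sl (y + k + z)) :
    ∃ l : D V, O.T1 l ∧ (∀ k ∈ K, l k = 0) ∧ l y = 1 := by
  obtain ⟨w, h1, h2⟩ := O.tool hz hy K h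
  have h3 : y ∉ O.VS w ⊔ K := by
    intro hm
    obtain ⟨u, hu, k, hk, huk⟩ := Submodule.mem_sup.1 hm
    apply h2 k hk
    rw [← huk, add_assoc, ZModModule.add_self, add_zero]
    exact hu
  obtain ⟨l, l1, l2⟩ := exists_dual_sep h3
  refine ⟨l, ⟨w, Sl.right h1, fun v hv => l2 v (Submodule.mem_sup_left hv), fun n hn => ?_⟩,
    fun k hk => l2 k (Submodule.mem_sup_right hk), l1⟩
  have h4 : O.Z w (y + n) := O.cc (O.cs h1) hn
  have h5 := l2 _ (Submodule.mem_sup_left h4)
  rw [map_add, l1] at h5
  rcases zm (l n) with h6 | h6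
  · rw [h6] at h5
    exact absurd h5 (by decide)
  · exact h6

/-- uniqueness of types -/
theorem T1.all {O : OC V} {l : D V} (h : O.T1 l) {y : V} (hy : ∀ v, O.Z y v → l v = 0) {n : V}
    (hn : O.C y n) : l n = 1 := by
  obtain ⟨s, ⟨r, hr⟩, h1, h2⟩ := h
  obtain ⟨m, hm1, hm2⟩ := O.link hr hn
  have h3 := hy _ (O.cc hm2 hn)
  rw [map_add, h2 m hm1] at h3
  rcases zm (l n) with h6 | h6
  · rw [h6] at h3
    exact absurd h3 (by decide)
  · exact h6

end OC

end Pool.Agent.ETE8
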